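import Pool.Agent.helper81.BS.SpecG

/-!
# Edge bisection, module A8: the list for all pairs of vertices
-/

set_option autoImplicit false
set_option linter.dupNamespace false
set_option linter.unusedVariables false

namespace Pool.Agent.helper81.BS

open Pool.Agent.helper81.PL

lemma A8_len {α β : Type} (l : List α) (f : α → List β) (B : ℕ)
    (h : ∀ x ∈ l, (f x).length ≤ B) : (l.flatMap f).length ≤ l.length * B := by
  induction l with
  | nil => simp
  | cons a l ih =>
    rw [List.flatMap_cons, List.length_append, List.length_cons]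
    have h1 := h a List.mem_cons_self
    have h2 := ih (fun x hx => h x (List.mem_cons_of_mem _ hx))
    calc (f a).length + (l.flatMap f).length ≤ B + l.length * B := Nat.add_le_add h1 h2
      _ = (l.length + 1) * B := by ring

lemma A8_mem {N n : ℕ} {E W : Finset ℕ} {c : ℕ} {R : Finset ℕ} :
    R ∈ allImp N n E W c ↔ ∃ v ∈ W, ∃ w ∈ W, v ≠ w ∧
      R ∈ impL N n E (insert w (Finset.range n \ W)) v c := by
  unfold allImp
  rw [List.mem_dedup, List.mem_flatMap]
  constructor
  · rintro ⟨v, hv, h⟩
    rw [List.mem_flatMap] at h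
    obtain ⟨w, hw, h⟩ := h
    by_cases hvw : v = w
    · simp [eqb, hvw] at h
    · refine ⟨v, (Finset.mem_sort _).1 hv, w, (Finset.mem_sort _).1 hw, hvw, ?_⟩
      simpa [eqb, hvw] using h
  · rintro ⟨v, hv, w, hw, hvw, h⟩
    refine ⟨v, (Finset.mem_sort _).2 hv, ?_⟩
    rw [List.mem_flatMap]
    refine ⟨w, (Finset.mem_sort _).2 hw, ?_⟩
    simpa [eqb, hvw] using h

theorem A8 (hM12 : M12_stmt) (hA7 : A7_stmt) : A8_stmt := by
  intro N n E W c hN hE hW
  have key : ∀ v ∈ W, ∀ w ∈ W, v ≠ w →
      (impL N n E (insert w (Finset.range n \ W)) v c).Nodup ∧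
      (∀ R, R ∈ impL N n E (insert w (Finset.range n \ W)) v c ↔
        Imp n E (insert w (Finset.range n \ W)) v R ∧ dd n E R ≤ c) ∧
      (impL N n E (insert w (Finset.range n \ W)) v c).length ≤ 4 ^ c := by
    intro v hv w hw hvw
    refine hA7 N n E (insert w (Finset.range n \ W)) v c hN hE ?_ (Finset.mem_range.1 (hW hv)) ?_
    · intro x hx
      rcases Finset.mem_insert.1 hx with rfl | hx
      · exact hW hw
      · exact (Finset.mem_sdiff.1 hx).1
    · intro h
      rcases Finset.mem_insert.1 h with h | h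
      · exact hvw h
      · exact (Finset.mem_sdiff.1 h).2 hv
  have hcard : W.card ≤ n := by
    have := Finset.card_le_card hW
    rwa [Finset.card_range] at this
  refine ⟨List.nodup_dedup _, ?_, ?_, ?_⟩
  · unfold allImp
    refine (List.dedup_sublist _).length_le.trans ?_
    refine (A8_len _ _ (n * 4 ^ c) ?_).trans ?_
    · intro v hv
      have hv := (Finset.mem_sort _).1 hv
      refine (A8_len _ _ (4 ^ c) ?_).trans ?_
      · intro w hw
        have hw := (Finset.mem_sort _).1 hw
        by_cases hvw : v = w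
        · simp [eqb, hvw]
        · have := (key v hv w hw hvw).2.2
          simpa [eqb, hvw] using this
      · rw [Finset.length_sort]
        exact Nat.mul_le_mul_right _ hcard
    · rw [Finset.length_sort, mul_assoc]
      exact Nat.mul_le_mul_right _ hcard
  · intro R hR
    obtain ⟨v, hv, w, hw, hvw, hR⟩ := A8_mem.1 hR
    obtain ⟨⟨⟨h1, h2, h3⟩, -⟩, h4⟩ := ((key v hv w hw hvw).2.1 R).1 hR
    have h5 : R ⊆ W := by
      intro x hx
      by_contra hxW
      exact Finset.disjoint_left.1 h2 hx (Finset.mem_insert_of_mem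
        (Finset.mem_sdiff.2 ⟨h1 hx, hxW⟩))
    refine ⟨h5, ?_, ⟨v, h3.1⟩, h4⟩
    rintro rfl
    exact Finset.disjoint_left.1 h2 hw (Finset.mem_insert_self _ _)
  · intro v K hK hKW hc hd
    have hvK := hc.1
    obtain ⟨w, hwW, hwK⟩ : ∃ w ∈ W, w ∉ K := by
      by_contra hno
      push Not at hno
      exact hKW (Finset.Subset.antisymm hK hno)
    have hvw : v ≠ w := by
      rintro rfl
      exact hwK hvK
    have hF : Feas n E (insert w (Finset.range n \ W)) v K := by
      refine ⟨hK.trans hW, ?_, hc⟩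
      rw [Finset.disjoint_left]
      intro x hx hxQ
      rcases Finset.mem_insert.1 hxQ with rfl | hxQ
      · exact hwK hx
      · exact (Finset.mem_sdiff.1 hxQ).2 (hK hx)
    obtain ⟨R, hR1, hR2, hR3⟩ := hM12 n E _ v K hF
    exact ⟨R, A8_mem.2 ⟨v, hK hvK, w, hwW, hvw,
      ((key v (hK hvK) w hwW hvw).2.1 R).2 ⟨hR1, hR3.trans hd⟩⟩, hR2, hR3⟩

end Pool.Agent.helper81.BS
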