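import Pool.Agent.helper81.BS.SpecG

/-!
# Edge bisection, module M12: envelope
-/

set_option autoImplicit false
set_option linter.dupNamespace false
set_option linter.unusedVariables false

namespace Pool.Agent.helper81.BS

open Pool.Agent.helper81.PL

theorem M12 : M12_stmt := by
  intro n E Q v K hK
  classical
  set S := (Finset.range n).powerset.filter
    (fun M => Feas n E Q v M ∧ K ⊆ M ∧ dd n E M ≤ dd n E K) with hS
  have hmem : ∀ M, M ∈ S ↔ Feas n E Q v M ∧ K ⊆ M ∧ dd n E M ≤ dd n E K := by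
    intro M
    rw [hS, Finset.mem_filter, Finset.mem_powerset]
    exact ⟨fun h => h.2, fun h => ⟨h.1.1, h⟩⟩
  have hne : S.Nonempty := ⟨K, (hmem K).2 ⟨hK, Finset.Subset.refl _, le_rfl⟩⟩
  obtain ⟨R, hR, hmax⟩ := Finset.exists_max_image S (fun M => M.card) hne
  obtain ⟨h1, h2, h3⟩ := (hmem R).1 hR
  refine ⟨R, ⟨h1, fun M hM hRM => ?_⟩, h2, h3⟩
  by_contra hlt
  rw [not_lt] at hlt
  have h4 := hmax M ((hmem M).2 ⟨hM, h2.trans hRM.1, hlt.trans h3⟩)
  have h5 := Finset.card_lt_card hRM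
  omega

end Pool.Agent.helper81.BS
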