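import Pool.Agent.helper81.BS.SpecG

/-!
# Edge bisection, module M3a: components exist
-/

set_option autoImplicit false
set_option linter.dupNamespace false
set_option linter.unusedVariables false

namespace Pool.Agent.helper81.BS

open Pool.Agent.helper81.PL

lemma M3a_insert {n : ℕ} {E K : Finset ℕ} {v a b : ℕ} (hK : Conn n E v K) (ha : a ∈ K)
    (hab : adjb n E a b = true) : Conn n E v (insert b K) := by
  refine ⟨Finset.mem_insert_of_mem hK.1, ?_⟩
  intro Z hZ hvZ hne
  by_cases hKZ : K ⊆ Z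
  · have hb : b ∉ Z := by
      intro hb
      exact hne (Finset.Subset.antisymm hZ (Finset.insert_subset hb hKZ))
    exact ⟨a, hKZ ha, b, Finset.mem_sdiff.2 ⟨Finset.mem_insert_self _ _, hb⟩, hab⟩
  · have h1 : Z ∩ K ≠ K := fun h => hKZ (by rw [← h]; exact Finset.inter_subset_left)
    obtain ⟨a', ha', b', hb', h'⟩ := hK.2 (Z ∩ K) Finset.inter_subset_right
      (Finset.mem_inter.2 ⟨hvZ, hK.1⟩) h1
    rw [Finset.mem_inter] at ha'
    rw [Finset.mem_sdiff, Finset.mem_inter] at hb'
    exact ⟨a', ha'.1, b', Finset.mem_sdiff.2 ⟨Finset.mem_insert_of_mem hb'.1,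
      fun h => hb'.2 ⟨h, hb'.1⟩⟩, h'⟩

theorem M3a : M3a_stmt := by
  intro n E X v hv
  classical
  have hne : (X.powerset.filter (fun K => Conn n E v K)).Nonempty := by
    refine ⟨{v}, Finset.mem_filter.2 ⟨Finset.mem_powerset.2 (Finset.singleton_subset_iff.2 hv),
      Finset.mem_singleton_self v, ?_⟩⟩
    intro Z hZ hvZ hne
    exact absurd (Finset.Subset.antisymm hZ (Finset.singleton_subset_iff.2 hvZ)) hne
  obtain ⟨K, hK, hmax⟩ := Finset.exists_max_image _ (fun K => K.card) hne
  rw [Finset.mem_filter, Finset.mem_powerset] at hK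
  refine ⟨K, hK.1, hK.2, ?_⟩
  intro a ha b hb
  rw [Finset.mem_sdiff] at hb
  by_contra hab
  rw [Bool.not_eq_false] at hab
  have h1 := M3a_insert hK.2 ha hab
  have h2 := hmax (insert b K) (Finset.mem_filter.2 ⟨Finset.mem_powerset.2
    (Finset.insert_subset hb.1 hK.1), h1⟩)
  rw [Finset.card_insert_of_notMem hb.2] at h2
  omega

end Pool.Agent.helper81.BS
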