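import Pool.Agent.helper81.BS.SpecG

/-!
# Edge bisection, module M9: push closure
-/

set_option autoImplicit false
set_option linter.dupNamespace false
set_option linter.unusedVariables false

namespace Pool.Agent.helper81.BS

open Pool.Agent.helper81.PL

lemma M9_single {n : ℕ} {E Q : Finset ℕ} {v : ℕ} (hv : v < n) (hQ : v ∉ Q) :
    Feas n E Q v {v} := by
  refine ⟨Finset.singleton_subset_iff.2 (Finset.mem_range.2 hv),
    Finset.disjoint_singleton_left.2 hQ, Finset.mem_singleton_self v, ?_⟩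
  intro X hX hvX hne
  exact absurd (Finset.Subset.antisymm hX (Finset.singleton_subset_iff.2 hvX)) hne

theorem M9 (hM4 : M4_stmt) (hM5 : M5_stmt) (hM7 : M7_stmt) (hM8 : M8_stmt) : M9_stmt := by
  intro n E Q v c L hE hv hQ h0 hmono hstep R hR hdR
  have hRF := hR.1
  have key : ∀ i, ∃ M, L i M ∧ Imp n E Q v M ∧ M ⊆ R ∧ (M = R ∨ i ≤ dd n E M) := by
    intro i
    induction i with
    | zero =>
      have hF := M9_single (E := E) hv hQ
      obtain ⟨M, hM, -⟩ := hM5 n E Q v {v} hE hF
      have hvR : {v} ⊆ R := Finset.singleton_subset_iff.2 hRF.2.2.1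
      refine ⟨M, h0 M hM ((hM.2.2 R hRF hvR).1.trans hdR), hM7 n E Q v _ M hM,
        hM8 n E Q v _ M R hE hF hM hR hvR, Or.inr (Nat.zero_le _)⟩
    | succ i ih =>
      obtain ⟨M, hL, hI, hMR, h⟩ := ih
      by_cases hne : M = R
      · subst hne
        exact ⟨M, hmono i M hL, hI, Finset.Subset.refl _, Or.inl rfl⟩
      · have hi := h.resolve_left hne
        obtain ⟨a, ha, b, hb, hab⟩ := hRF.2.2.2 M hMR hI.1.2.2.1 hne
        rw [Finset.mem_sdiff] at hb
        have hbn : b < n := Finset.mem_range.1 (hRF.1 hb.1)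
        have hbQ : b ∉ Q := Finset.disjoint_left.1 hRF.2.1 hb.1
        have hF := (hM4 n E Q v M hI.1).2 a ha b hbn hbQ hab
        obtain ⟨M', hM', -⟩ := hM5 n E Q v _ hE hF
        have hsub : insert b M ⊆ R := Finset.insert_subset hb.1 hMR
        have hlt : dd n E M < dd n E M' := by
          refine hI.2 M' hM'.1 ?_
          exact (Finset.ssubset_iff_of_subset ((Finset.subset_insert b M).trans hM'.2.1)).2
            ⟨b, hM'.2.1 (Finset.mem_insert_self _ _), hb.2⟩
        exact ⟨M', hstep i M hL hI b hbn hb.2 hbQ ⟨a, ha, hab⟩ M' hM'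
          ((hM'.2.2 R hRF hsub).1.trans hdR), hM7 n E Q v _ M' hM',
          hM8 n E Q v _ M' R hE hF hM' hR hsub, Or.inr (by omega)⟩
  obtain ⟨M, hL, hI, hMR, h⟩ := key (c + 1)
  rcases h with h | h
  · rwa [h] at hL
  · exfalso
    by_cases hne : M = R
    · subst hne; omega
    · have := hI.2 R hRF (Finset.ssubset_iff_subset_ne.2 ⟨hMR, hne⟩)
      omega

end Pool.Agent.helper81.BS
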