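import Pool.Agent.helper50.BS.SpecT

/-!
# Project bs, module TA3: the weight is multiplicative
-/

set_option autoImplicit false
set_option linter.unusedVariables false
set_option linter.dupNamespace false

open Finset

open scoped Classical

noncomputable section

namespace Pool.Agent.BS

theorem TA3 (hTA1 : TA1_stmt) (hTA2 : TA2_stmt) : TA3_stmt := by
  intro g R _ W β x y u
  constructor
  · have e1 : (∅ : Finset (ℕ ⊕ ℕ)).toLeft = ∅ := by ext v; simp
    have e2 : (∅ : Finset (ℕ ⊕ ℕ)).toRight = ∅ := by ext v; simp
    unfold om nW bB IG.cW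
    rw [e1, e2]
    simp
  · intro A B hAB
    have h1 := (hTA1 g).2 W A B hAB
    have hd : Disjoint A B := by
      rw [Finset.disjoint_left]
      intro a ha hb
      exact hAB ⟨a, ha, a, hb, Or.inl rfl⟩
    obtain ⟨h2, h3⟩ := hTA2 W β A B hd
    unfold om
    rw [h1, h2, h3, pow_add, pow_add, pow_add]
    ring

end Pool.Agent.BS
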