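import Pool.Agent.helper50.BS.SpecU

/-!
# Project bs, module UC9: entries of the tables
-/

set_option autoImplicit false
set_option linter.unusedVariables false
set_option linter.dupNamespace false

open scoped Classical

noncomputable section

namespace Pool.Agent.helper50.BT

open Pool.Agent.helper81.PL

theorem UC9 (hTC5 : BS.TC5_stmt) (hTR3 : BS.TR3_stmt) (hUA1 : UA1_stmt) (hUA2 : UA2_stmt)
    (hUA3 : UA3_stmt) (hUC8 : UC8_stmt) : UC9_stmt := by
  intro N M n k E W PP Tl h T hH P hP a c ha hc
  have hM : 0 < M := lt_of_lt_of_le two_pos hH.two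
  obtain ⟨u1, u2, u3, u4, u5⟩ := hUA1 n E h
  obtain ⟨p1, p2, p3⟩ := hUA2 n E W h PP hH.tight.1.1
  have hWn : W.card ≤ n := by
    have := Finset.card_le_card hH.sub
    rwa [Finset.card_range] at this
  have hG1 := hUC8 N M n k E W PP Tl h T hH P hP
  have hG2 := hUC8 N M n k E W PP Tl h T hH (helper81.BS.dl n E W \ P) Finset.sdiff_subset
  have c1 : ∀ j ≤ 3 * k, (cfT k (3 * k) (GT N M n k E Tl W PP P) a c j : ZMod M) =
      (BS.cntj (ig n E h) W (helper81.BS.beta n E W PP) P a c j : ZMod M) := by
    intro j hj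
    rw [hG1.2.2 a c j (ha.trans hWn) hc hj]
    exact (hTR3 M n k (3 * k) T (ig n E h) W (helper81.BS.beta n E W PP) P a c j
      (ha.trans hWn) hc hj).1
  have c2 : ∀ j ≤ 3 * k,
      (cfT k (3 * k) (GT N M n k E Tl W PP (helper81.BS.dl n E W \ P)) (W.card - a) c j : ZMod M) =
      (BS.cntj (ig n E h) W (helper81.BS.beta n E W PP) (helper81.BS.dl n E W \ P) (W.card - a) c j :
        ZMod M) := by
    intro j hj
    rw [hG2.2.2 (W.card - a) c j ((Nat.sub_le _ _).trans hWn) hc hj]
    exact (hTR3 M n k (3 * k) T (ig n E h) W (helper81.BS.beta n E W PP)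
      (helper81.BS.dl n E W \ P) (W.card - a) c j ((Nat.sub_le _ _).trans hWn) hc hj).1
  have key := hTC5 (ig n E h) k PP.toFinset W P a c p2 (by rw [u1]; exact hH.dW)
    (hUA3 n k E W h PP hH.tight) (by rw [u1]; exact hP) hc ha
  rw [p3, u1] at key
  refine ⟨Nat.mod_lt _ hM, ?_⟩
  unfold resE
  rw [ZMod.natCast_mod, key, Nat.cast_add, Nat.cast_add, Nat.cast_sum, Nat.cast_sum]
  congr 1
  · rw [← List.sum_toFinset _ List.nodup_range, List.toFinset_range, Nat.cast_sum]
    refine Finset.sum_congr rfl (fun j hj => c1 j ?_)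
    have := Finset.mem_range.1 hj
    omega
  · rw [← List.sum_toFinset _ (List.nodup_range.filter _), Nat.cast_sum]
    refine Finset.sum_congr ?_ (fun j hj => c2 j ?_)
    · ext j
      rw [List.mem_toFinset, List.mem_filter, Finset.mem_filter, List.mem_range, Finset.mem_range]
      unfold leb
      rw [decide_eq_true_eq]
      exact Iff.rfl
    · have := (Finset.mem_filter.1 hj).1
      have := Finset.mem_range.1 this
      omega

end Pool.Agent.helper50.BT
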