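import Pool.Agent.helper81.BS.SpecG

/-!
# Edge bisection, module A2: the search
-/

set_option autoImplicit false
set_option linter.dupNamespace false
set_option linter.unusedVariables false

namespace Pool.Agent.helper81.BS

open Pool.Agent.helper81.PL

/-- the set of heads -/
def A2_H (n : ℕ) (L : List (List ℕ)) : Finset ℕ := (L.map (fun p => p.headD n)).toFinset

lemma A2_memH {n : ℕ} {L : List (List ℕ)} {u : ℕ} :
    u ∈ A2_H n L ↔ ∃ p ∈ L, p.headD n = u := by
  unfold A2_H
  simp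

/-- the new paths -/
def A2_f (n : ℕ) (E D : Finset ℕ) (L : List (List ℕ)) (u : ℕ) : Option (List ℕ) :=
  bif L.any (fun p => eqb (p.headD n) u) then none
    else (L.find? (fun p => res n E D u (p.headD n))).map (fun p => u :: p)

lemma A2_f_some {n : ℕ} {E D : Finset ℕ} {L : List (List ℕ)} {u : ℕ} {x : List ℕ}
    (h : A2_f n E D L u = some x) :
    u ∉ A2_H n L ∧ ∃ p ∈ L, res n E D u (p.headD n) = true ∧ x = u :: p := by
  unfold A2_f at h
  by_cases hc : L.any (fun p => eqb (p.headD n) u) = true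
  · rw [hc] at h
    simp at h
  · rw [Bool.not_eq_true] at hc
    rw [hc, cond_false, Option.map_eq_some_iff] at h
    obtain ⟨p, hp, hx⟩ := h
    refine ⟨?_, p, List.mem_of_find?_eq_some hp, by simpa using List.find?_some hp, hx.symm⟩
    rw [A2_memH]
    rintro ⟨p', hp', hu⟩
    rw [List.any_eq_false] at hc
    exact hc p' hp' (by unfold eqb; exact decide_eq_true hu)

lemma A2_f_ne {n : ℕ} {E D : Finset ℕ} {L : List (List ℕ)} {u : ℕ} (hu : u ∉ A2_H n L)
    {p : List ℕ} (hp : p ∈ L) (hr : res n E D u (p.headD n) = true) :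
    ∃ x, A2_f n E D L u = some (u :: x) := by
  unfold A2_f
  have hc : L.any (fun p => eqb (p.headD n) u) = false := by
    rw [List.any_eq_false]
    intro p' hp' h
    exact hu (A2_memH.2 ⟨p', hp', by simpa [eqb] using h⟩)
  rw [hc, cond_false]
  cases hf : L.find? (fun p => res n E D u (p.headD n)) with
  | none =>
    rw [List.find?_eq_none] at hf
    exact absurd hr (hf p hp)
  | some p' => exact ⟨p', rfl⟩

lemma A2_sub {f : ℕ → Option (List ℕ)} {n : ℕ} (h : ∀ u p, f u = some p → p.headD n = u)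
    (l : List ℕ) : ((l.filterMap f).map (fun p => p.headD n)).Sublist l := by
  induction l with
  | nil => simp
  | cons a l ih =>
    cases hf : f a with
    | none => rw [List.filterMap_cons_none hf]; exact ih.cons a
    | some p =>
      rw [List.filterMap_cons_some hf, List.map_cons, h a p hf]
      exact ih.cons_cons a

lemma A2_bfs1 (n : ℕ) (E D : Finset ℕ) (L : List (List ℕ)) :
    bfs1 n E D L = L ++ (List.range n).filterMap (A2_f n E D L) := rfl

/-- the invariant -/
structure A2_Inv (n : ℕ) (E D Q : Finset ℕ) (L : List (List ℕ)) : Prop where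
  rp : ∀ p ∈ L, RPath n E D Q p
  nd : (L.map (fun p => p.headD n)).Nodup
  hd : ∀ p ∈ L, ∀ x ∈ p, x ∈ A2_H n L
  qs : Q ⊆ A2_H n L

lemma A2_ne {n : ℕ} {E D Q : Finset ℕ} {p : List ℕ} (h : RPath n E D Q p) : p ≠ [] := by
  rintro rfl
  obtain ⟨-, -, -, q, -, hq⟩ := h
  simp at hq

lemma A2_lt {n : ℕ} {E D Q : Finset ℕ} {p : List ℕ} (h : RPath n E D Q p) : p.headD n < n := by
  obtain ⟨a, p', rfl⟩ := List.exists_cons_of_ne_nil (A2_ne h)
  exact h.2.1 a List.mem_cons_self

lemma A2_Hsub {n : ℕ} {E D Q : Finset ℕ} {L : List (List ℕ)} (h : A2_Inv n E D Q L) :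
    A2_H n L ⊆ Finset.range n := by
  intro u hu
  obtain ⟨p, hp, rfl⟩ := A2_memH.1 hu
  exact Finset.mem_range.2 (A2_lt (h.rp p hp))

lemma A2_H1 (n : ℕ) (E D : Finset ℕ) (L : List (List ℕ)) :
    A2_H n L ⊆ A2_H n (bfs1 n E D L) := by
  intro u hu
  obtain ⟨p, hp, rfl⟩ := A2_memH.1 hu
  exact A2_memH.2 ⟨p, by rw [A2_bfs1]; exact List.mem_append_left _ hp, rfl⟩

lemma A2_step {n : ℕ} {E D Q : Finset ℕ} {L : List (List ℕ)} (h : A2_Inv n E D Q L) :
    A2_Inv n E D Q (bfs1 n E D L) := by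
  have hmem : ∀ x ∈ (List.range n).filterMap (A2_f n E D L), ∃ u < n, u ∉ A2_H n L ∧
      ∃ p ∈ L, res n E D u (p.headD n) = true ∧ x = u :: p := by
    intro x hx
    rw [List.mem_filterMap] at hx
    obtain ⟨u, hu, hx⟩ := hx
    exact ⟨u, List.mem_range.1 hu, A2_f_some hx⟩
  refine ⟨?_, ?_, ?_, h.qs.trans (A2_H1 n E D L)⟩
  · intro p hp
    rw [A2_bfs1, List.mem_append] at hp
    rcases hp with hp | hp
    · exact h.rp p hp
    · obtain ⟨u, hu, hu', p, hp2, hr, rfl⟩ := hmem p hp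
      have h1 := h.rp p hp2
      obtain ⟨w, p', rfl⟩ := List.exists_cons_of_ne_nil (A2_ne h1)
      obtain ⟨r1, r2, r3, q, hq, r4⟩ := h1
      refine ⟨?_, ?_, ?_, q, hq, ?_⟩
      · rw [List.nodup_cons]
        exact ⟨fun h' => hu' (h.hd _ hp2 u h'), r1⟩
      · intro x hx
        rcases List.mem_cons.1 hx with rfl | hx
        · exact hu
        · exact r2 x hx
      · exact List.IsChain.cons_cons hr r3
      · rw [List.getLast?_cons_cons]; exact r4
  · rw [A2_bfs1, List.map_append, List.nodup_append]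
    refine ⟨h.nd, (A2_sub ?_ _).nodup List.nodup_range, ?_⟩
    · intro u x hx
      obtain ⟨-, p, -, -, rfl⟩ := A2_f_some hx
      rfl
    · intro a ha b hb hab
      rw [List.mem_map] at ha hb
      obtain ⟨p, hp, rfl⟩ := ha
      obtain ⟨p', hp', rfl⟩ := hb
      obtain ⟨u, hu, hu', p2, hp2, hr, rfl⟩ := hmem p' hp'
      exact hu' (A2_memH.2 ⟨p, hp, hab⟩)
  · intro p hp x hx
    rw [A2_bfs1, List.mem_append] at hp
    rcases hp with hp | hp
    · exact A2_H1 n E D L (h.hd p hp x hx)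
    · obtain ⟨u, hu, hu', p2, hp2, hr, rfl⟩ := hmem p hp
      rcases List.mem_cons.1 hx with rfl | hx
      · exact A2_memH.2 ⟨_, by rw [A2_bfs1]; exact List.mem_append_right _ hp, rfl⟩
      · exact A2_H1 n E D L (h.hd p2 hp2 x hx)

lemma A2_len {n : ℕ} {l : List ℕ} (h : l.Nodup) (h' : ∀ x ∈ l, x < n) : l.length ≤ n := by
  have h1 : l.toFinset ⊆ Finset.range n := by
    intro x hx
    exact Finset.mem_range.2 (h' x (List.mem_toFinset.1 hx))
  have h2 := Finset.card_le_card h1
  rwa [List.toFinset_card_of_nodup h, Finset.card_range] at h2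

lemma A2_fits {N n : ℕ} {E D Q : Finset ℕ} {L : List (List ℕ)} (hN : n ≤ N)
    (h : A2_Inv n E D Q L) : Clip.Fits N L := by
  rw [fits_list]
  constructor
  · have := A2_len h.nd (fun x hx => by
      rw [List.mem_map] at hx
      obtain ⟨p, hp, rfl⟩ := hx
      exact A2_lt (h.rp p hp))
    rw [List.length_map] at this
    omega
  · intro p hp
    rw [fits_list]
    obtain ⟨r1, r2, -⟩ := h.rp p hp
    refine ⟨(A2_len r1 r2).trans hN, fun x hx => ?_⟩
    rw [fits_nat]
    exact (r2 x hx).le.trans hN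

lemma A2_init {n : ℕ} {E D Q : Finset ℕ} (hQ : Q ⊆ Finset.range n) :
    A2_Inv n E D Q (Q.sort.map (fun q => [q])) := by
  have hmem : ∀ p ∈ Q.sort.map (fun q => [q]), ∃ q ∈ Q, p = [q] := by
    intro p hp
    rw [List.mem_map] at hp
    obtain ⟨q, hq, rfl⟩ := hp
    exact ⟨q, (Finset.mem_sort _).1 hq, rfl⟩
  have hq' : ∀ q ∈ Q, q ∈ A2_H n (Q.sort.map (fun q => [q])) := by
    intro q hq
    exact A2_memH.2 ⟨[q], List.mem_map.2 ⟨q, (Finset.mem_sort _).2 hq, rfl⟩, rfl⟩
  refine ⟨?_, ?_, ?_, hq'⟩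
  · intro p hp
    obtain ⟨q, hq, rfl⟩ := hmem p hp
    refine ⟨List.nodup_singleton q, ?_, List.isChain_singleton q, q, hq, rfl⟩
    intro x hx
    rw [List.mem_singleton] at hx
    subst hx
    exact Finset.mem_range.1 (hQ hq)
  · rw [List.map_map]
    have : ((fun p : List ℕ => p.headD n) ∘ fun q => [q]) = id := by
      funext q; rfl
    rw [this, List.map_id]
    exact Finset.sort_nodup _ _
  · intro p hp x hx
    obtain ⟨q, hq, rfl⟩ := hmem p hp
    rw [List.mem_singleton] at hx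
    subst hx
    exact hq' x hq

/-- closed under residual predecessors -/
def A2_Cl (n : ℕ) (E D : Finset ℕ) (L : List (List ℕ)) : Prop :=
  ∀ u < n, ∀ w ∈ A2_H n L, res n E D u w = true → u ∈ A2_H n L

lemma A2_fix {n : ℕ} {E D : Finset ℕ} {L : List (List ℕ)} (h : A2_Cl n E D L) :
    bfs1 n E D L = L := by
  rw [A2_bfs1]
  have : (List.range n).filterMap (A2_f n E D L) = [] := by
    rw [List.filterMap_eq_nil_iff]
    intro u hu
    cases hf : A2_f n E D L u with
    | none => rfl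
    | some x =>
      obtain ⟨h1, p, hp, hr, -⟩ := A2_f_some hf
      exact absurd (h u (List.mem_range.1 hu) _ (A2_memH.2 ⟨p, hp, rfl⟩) hr) h1
  rw [this, List.append_nil]

lemma A2_prog {n : ℕ} {E D Q : Finset ℕ} (hQ : Q ⊆ Finset.range n) (i : ℕ) :
    A2_Inv n E D Q ((fun L => bfs1 n E D L)^[i] (Q.sort.map (fun q => [q]))) ∧
    (A2_Cl n E D ((fun L => bfs1 n E D L)^[i] (Q.sort.map (fun q => [q]))) ∨
      i ≤ (A2_H n ((fun L => bfs1 n E D L)^[i] (Q.sort.map (fun q => [q])))).card) := by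
  induction i with
  | zero => exact ⟨A2_init hQ, Or.inr (Nat.zero_le _)⟩
  | succ i ih =>
    rw [Function.iterate_succ_apply']
    set L := (fun L => bfs1 n E D L)^[i] (Q.sort.map (fun q => [q])) with hL
    obtain ⟨ih1, ih2⟩ := ih
    refine ⟨A2_step ih1, ?_⟩
    by_cases hc : A2_Cl n E D L
    · left
      show A2_Cl n E D (bfs1 n E D L)
      rw [A2_fix hc]; exact hc
    · right
      have hi := ih2.resolve_left hc
      unfold A2_Cl at hc
      push Not at hc
      obtain ⟨u, hu, w, hw, hr, hu'⟩ := hc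
      obtain ⟨p, hp, rfl⟩ := A2_memH.1 hw
      obtain ⟨x, hx⟩ := A2_f_ne hu' hp hr
      have h1 : u ∈ A2_H n (bfs1 n E D L) := by
        refine A2_memH.2 ⟨u :: x, ?_, rfl⟩
        rw [A2_bfs1]
        exact List.mem_append_right _ (List.mem_filterMap.2 ⟨u, List.mem_range.2 hu, hx⟩)
      have h2 : A2_H n L ⊂ A2_H n (bfs1 n E D L) :=
        (Finset.ssubset_iff_of_subset (A2_H1 n E D L)).2 ⟨u, h1, hu'⟩
      have := Finset.card_lt_card h2
      show i + 1 ≤ (A2_H n (bfs1 n E D L)).card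
      omega

theorem A2 : A2_stmt := by
  intro N n E D Q hN hQ
  obtain ⟨e1, -⟩ := citer_inv (N := N) (n := n) (s := fun L => bfs1 n E D L)
    (x := Q.sort.map (fun q => [q])) (A2_Inv n E D Q) (A2_init hQ) (fun L h => A2_step h)
    (fun L h => A2_fits hN h)
  have e2 : bfs N n E D Q = (fun L => bfs1 n E D L)^[n] (Q.sort.map (fun q => [q])) := e1
  obtain ⟨h1, h2⟩ := A2_prog (n := n) (E := E) (D := D) hQ n
  have e3 : back N n E Q D = A2_H n (bfs N n E D Q) := rfl
  rw [e3, e2]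
  refine ⟨h1.rp, h1.qs, A2_Hsub h1, ?_⟩
  rcases h2 with h2 | h2
  · exact h2
  · intro u hu w hw hr
    have : A2_H n ((fun L => bfs1 n E D L)^[n] (Q.sort.map (fun q => [q]))) = Finset.range n :=
      Finset.eq_of_subset_of_card_le (A2_Hsub h1) (by rw [Finset.card_range]; exact h2)
    rw [this]
    exact Finset.mem_range.2 hu

end Pool.Agent.helper81.BS
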