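import Pool.Agent.helper73.BS.Spec

set_option autoImplicit false

namespace Pool.Agent.BS

open Matrix Module Pool.Agent.UG

/-- elements of the closure of matrices which fix `u` fix `u` -/
theorem MX_fix_ZQ {n : ℕ} {u : VQ n} {S : Set (MQ n)} (hS : ∀ x ∈ S, x *ᵥ u = u) :
    ∀ x ∈ ZQ S, x *ᵥ u = u := by
  intro x hx
  ext i
  have key : ∀ y : MQ n, MvPolynomial.eval (fun a : Fin n × Fin n => y a.1 a.2)
      (∑ j, MvPolynomial.C (u j) * MvPolynomial.X (i, j) - MvPolynomial.C (u i))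
      = (y *ᵥ u) i - u i := by
    intro y
    rw [map_sub, map_sum, MvPolynomial.eval_C]
    congr 1
    apply Finset.sum_congr rfl
    intro j _
    rw [map_mul, MvPolynomial.eval_C, MvPolynomial.eval_X]
    ring
  have h1 := hx (∑ j, MvPolynomial.C (u j) * MvPolynomial.X (i, j) - MvPolynomial.C (u i))
    (fun y hy => by rw [key, hS y hy, sub_self])
  rw [key] at h1
  linarith

theorem MX_pow_fix {n : ℕ} {u : VQ n} {y : MQ n} (h : y *ᵥ u = u) (j : ℕ) : (y ^ j) *ᵥ u = u := by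
  induction j with
  | zero => rw [pow_zero, one_mulVec]
  | succ j ih => rw [pow_succ, ← mulVec_mulVec, h, ih]

theorem MX_inv_fix {n : ℕ} {u : VQ n} {y : MQ n} (hd : IsUnit y.det) (h : y *ᵥ u = u) :
    y⁻¹ *ᵥ u = u := by
  have h1 : y⁻¹ *ᵥ (y *ᵥ u) = y⁻¹ *ᵥ u := by rw [h]
  rw [mulVec_mulVec, Matrix.nonsing_inv_mul y hd, one_mulVec] at h1
  exact h1.symm

theorem MX_comm_exp {n : ℕ} {s N : MQ n} (h : Commute s N) (hN : IsNilpotent N) :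
    Commute s (IsNilpotent.exp N) := by
  obtain ⟨k, hk⟩ := hN
  rw [IsNilpotent.exp_eq_sum hk]
  exact Commute.sum_right _ _ _ fun i _ => (h.pow_right i).smul_right _

theorem MX_conj_pow {n : ℕ} {g g' : MQ n} (h : g' * g = 1) (h' : g * g' = 1) (X : MQ n) (k : ℕ) :
    (g * X * g') ^ k = g * X ^ k * g' := by
  induction k with
  | zero => rw [pow_zero, pow_zero, mul_one, h']
  | succ k ih =>
    rw [pow_succ, ih, pow_succ]
    calc g * X ^ k * g' * (g * X * g') = g * X ^ k * (g' * g) * X * g' := by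
          simp only [mul_assoc]
      _ = g * (X ^ k * X) * g' := by rw [h, mul_one]; simp only [mul_assoc]

theorem MX_conj_nil {n : ℕ} {g g' : MQ n} (h : g' * g = 1) (h' : g * g' = 1) {X : MQ n}
    (hX : IsNilpotent X) : IsNilpotent (g * X * g') := by
  obtain ⟨k, hk⟩ := hX
  exact ⟨k, by rw [MX_conj_pow h h', hk, mul_zero, zero_mul]⟩

theorem MX_exp_conj {n : ℕ} {g g' : MQ n} (h : g' * g = 1) (h' : g * g' = 1) {X : MQ n}
    (hX : IsNilpotent X) :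
    g * IsNilpotent.exp X * g' = IsNilpotent.exp (g * X * g') := by
  obtain ⟨k, hk⟩ := hX
  have hk' : (g * X * g') ^ k = 0 := by rw [MX_conj_pow h h', hk, mul_zero, zero_mul]
  rw [IsNilpotent.exp_eq_sum hk, IsNilpotent.exp_eq_sum hk', Finset.mul_sum, Finset.sum_mul]
  apply Finset.sum_congr rfl
  intro i _
  rw [MX_conj_pow h h', mul_smul_comm, smul_mul_assoc]

theorem MX_qg_inv {n : ℕ} (g : SLZ n) : (qg g)⁻¹ = qg g⁻¹ :=
  Matrix.inv_eq_right_inv (qg_mul_inv g)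

theorem MX_qg_det {n : ℕ} (g : SLZ n) : IsUnit (qg g).det := by
  rw [← Matrix.isUnit_iff_isUnit_det]
  exact isUnit_iff_exists.2 ⟨qg g⁻¹, qg_mul_inv g, qg_inv_mul g⟩

/-- `N - X ∈ 𝔲` for the nilpotent part of `g` -/
def MX_NP {n : ℕ} (𝔲 : Submodule ℚ (MQ n)) (g : SLZ n) (X : MQ n) : Prop :=
  ∀ s N : MQ n, JD (qg g) s N → N - X ∈ 𝔲

/-- data for the products -/
structure MX_D {n : ℕ} (P : Subgroup (SLZ n)) (𝔲 𝔣 : Submodule ℚ (MQ n)) : Prop where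
  nil : ∀ X ∈ 𝔣, IsNilpotent X
  mul : ∀ X ∈ 𝔣, ∀ Y ∈ 𝔣, ∃ Z ∈ 𝔣, IsNilpotent.exp X * IsNilpotent.exp Y = IsNilpotent.exp Z
  conj : ∀ X ∈ 𝔣, ∀ g ∈ P, qg g * X * qg g⁻¹ ∈ 𝔣
  je : ∀ g : SLZ n, ∃ s N : MQ n, JD (qg g) s N ∧ ∀ s' N' : MQ n, JD (qg g) s' N' → s' = s ∧ N' = N
  ad : ∀ g ∈ P, ∀ h ∈ P, ∀ s N s' N' s'' N'' : MQ n,
    JD (qg g) s N → JD (qg h) s' N' → JD (qg (g * h)) s'' N'' → N'' - N - N' ∈ 𝔲

theorem MX_NP_mul {n : ℕ} {P : Subgroup (SLZ n)} {𝔲 𝔣 : Submodule ℚ (MQ n)} (D : MX_D P 𝔲 𝔣)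
    {g h : SLZ n} (hg : g ∈ P) (hh : h ∈ P) {X Y : MQ n} (hX : MX_NP 𝔲 g X) (hY : MX_NP 𝔲 h Y) :
    MX_NP 𝔲 (g * h) (X + Y) := by
  intro s'' N'' hJ
  obtain ⟨s, N, hJ1, -⟩ := D.je g
  obtain ⟨s', N', hJ2, -⟩ := D.je h
  have h1 := 𝔲.add_mem (𝔲.add_mem (D.ad g hg h hh s N s' N' s'' N'' hJ1 hJ2 hJ)
    (hX s N hJ1)) (hY s' N' hJ2)
  have h2 : N'' - (X + Y) = N'' - N - N' + (N - X) + (N' - Y) := by abel
  rw [h2]
  exact h1

theorem MX_JD_one {n : ℕ} : JD (qg (1 : SLZ n)) 1 0 := by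
  refine ⟨IsNilpotent.zero, Commute.zero_right _, ?_, ?_⟩
  · rw [Matrix.toLin'_one]
    exact Module.End.isSemisimple_id
  · rw [qg_one, IsNilpotent.exp_zero, mul_one]

theorem MX_NP_one {n : ℕ} {P : Subgroup (SLZ n)} {𝔲 𝔣 : Submodule ℚ (MQ n)} (D : MX_D P 𝔲 𝔣) :
    MX_NP 𝔲 (1 : SLZ n) 0 := by
  intro s N hJ
  obtain ⟨s0, N0, -, hu⟩ := D.je 1
  have h1 := (hu s N hJ).2
  have h2 := (hu 1 0 MX_JD_one).2
  rw [h1, ← h2, sub_zero]
  exact 𝔲.zero_mem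

theorem MX_NP_inv {n : ℕ} {P : Subgroup (SLZ n)} {𝔲 𝔣 : Submodule ℚ (MQ n)} (D : MX_D P 𝔲 𝔣)
    {g : SLZ n} (hg : g ∈ P) {X : MQ n} (hX : MX_NP 𝔲 g X) : MX_NP 𝔲 g⁻¹ (-X) := by
  intro s' N' hJ
  obtain ⟨s, N, hJ1, -⟩ := D.je g
  have h0 : JD (qg (g * g⁻¹)) 1 0 := by
    rw [mul_inv_cancel]
    exact MX_JD_one
  have h1 := D.ad g hg g⁻¹ (P.inv_mem hg) s N s' N' 1 0 hJ1 hJ h0
  have h2 := 𝔲.neg_mem (𝔲.add_mem h1 (hX s N hJ1))
  have h3 : N' - -X = -(0 - N - N' + (N - X)) := by abel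
  rw [h3]
  exact h2

theorem MX_NP_pow {n : ℕ} {P : Subgroup (SLZ n)} {𝔲 𝔣 : Submodule ℚ (MQ n)} (D : MX_D P 𝔲 𝔣)
    {g : SLZ n} (hg : g ∈ P) {X : MQ n} (hX : MX_NP 𝔲 g X) (k : ℕ) :
    MX_NP 𝔲 (g ^ k) ((k : ℚ) • X) := by
  induction k with
  | zero =>
    rw [pow_zero, Nat.cast_zero, zero_smul]
    exact MX_NP_one D
  | succ k ih =>
    rw [pow_succ, Nat.cast_succ, add_smul, one_smul]
    exact MX_NP_mul D (P.pow_mem hg k) hg ih hX

theorem MX_NP_zpow {n : ℕ} {P : Subgroup (SLZ n)} {𝔲 𝔣 : Submodule ℚ (MQ n)} (D : MX_D P 𝔲 𝔣)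
    {g : SLZ n} (hg : g ∈ P) {X : MQ n} (hX : MX_NP 𝔲 g X) (z : ℤ) :
    MX_NP 𝔲 (g ^ z) ((z : ℚ) • X) := by
  obtain ⟨k, rfl | rfl⟩ := z.eq_nat_or_neg
  · rw [zpow_natCast]
    have h1 : (((k : ℕ) : ℤ) : ℚ) = (k : ℚ) := by push_cast; rfl
    rw [h1]
    exact MX_NP_pow D hg hX k
  · rw [_root_.zpow_neg, zpow_natCast]
    have h1 : ((-((k : ℕ) : ℤ) : ℤ) : ℚ) = -(k : ℚ) := by push_cast; rfl
    rw [h1, neg_smul]
    exact MX_NP_inv D (P.pow_mem hg k) (MX_NP_pow D hg hX k)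

/-- the elements which are solvable at `u` -/
def MX_S {n : ℕ} {P : Subgroup (SLZ n)} {𝔲 𝔣 : Submodule ℚ (MQ n)} (D : MX_D P 𝔲 𝔣) (u : VQ n) :
    Subgroup (SLZ n) where
  carrier := {g | g ∈ P ∧ SolvG 𝔣 (qg g) ⊥ u}
  one_mem' := by
    refine ⟨P.one_mem, 0, 𝔣.zero_mem, ?_⟩
    rw [IsNilpotent.exp_zero, one_mulVec, qg_one, one_mulVec, sub_self]
    exact Submodule.zero_mem _
  mul_mem' := by
    rintro g h ⟨hg, X, hX, hXu⟩ ⟨hh, Y, hY, hYu⟩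
    refine ⟨P.mul_mem hg hh, ?_⟩
    rw [Submodule.mem_bot, sub_eq_zero] at hXu hYu
    obtain ⟨Z, hZ, hZe⟩ := D.mul X hX _ (D.conj Y hY g hg)
    refine ⟨Z, hZ, ?_⟩
    rw [Submodule.mem_bot, sub_eq_zero, ← hZe,
      ← MX_exp_conj (qg_inv_mul g) (qg_mul_inv g) (D.nil Y hY)]
    have h1 : IsNilpotent.exp X * (qg g * IsNilpotent.exp Y * qg g⁻¹) * qg (g * h)
        = IsNilpotent.exp X * qg g * (IsNilpotent.exp Y * qg h) := by
      rw [qg_mul]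
      calc IsNilpotent.exp X * (qg g * IsNilpotent.exp Y * qg g⁻¹) * (qg g * qg h)
          = IsNilpotent.exp X * qg g * IsNilpotent.exp Y * (qg g⁻¹ * qg g) * qg h := by
            simp only [mul_assoc]
        _ = _ := by rw [qg_inv_mul, mul_one]; simp only [mul_assoc]
    rw [mulVec_mulVec, h1, ← mulVec_mulVec, ← mulVec_mulVec u (IsNilpotent.exp Y) (qg h), hYu,
      ← mulVec_mulVec, hXu]
  inv_mem' := by
    rintro g ⟨hg, X, hX, hXu⟩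
    refine ⟨P.inv_mem hg, ?_⟩
    rw [Submodule.mem_bot, sub_eq_zero] at hXu
    have hX' := D.conj (-X) (𝔣.neg_mem hX) g⁻¹ (P.inv_mem hg)
    refine ⟨_, hX', ?_⟩
    have e1 : qg g⁻¹⁻¹ * qg g⁻¹ = 1 := qg_inv_mul g⁻¹
    have e2 : qg g⁻¹ * qg g⁻¹⁻¹ = 1 := qg_mul_inv g⁻¹
    rw [Submodule.mem_bot, sub_eq_zero, ← MX_exp_conj e1 e2 (D.nil X hX).neg, mulVec_mulVec]
    have h1 : qg g⁻¹ * IsNilpotent.exp (-X) * qg g⁻¹⁻¹ * qg g⁻¹
        = qg g⁻¹ * IsNilpotent.exp (-X) := by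
      rw [mul_assoc, e1, mul_one]
    rw [h1]
    have h2 : (qg g⁻¹ * IsNilpotent.exp (-X)) *ᵥ (IsNilpotent.exp X *ᵥ (qg g *ᵥ u))
        = (qg g⁻¹ * IsNilpotent.exp (-X)) *ᵥ u := by rw [hXu]
    rw [← h2, mulVec_mulVec, mulVec_mulVec]
    have h3 : qg g⁻¹ * IsNilpotent.exp (-X) * IsNilpotent.exp X * qg g = 1 := by
      rw [mul_assoc (qg g⁻¹), IsNilpotent.exp_neg_mul_exp_self (D.nil X hX), mul_one, qg_inv_mul]
    rw [h3, one_mulVec]

theorem MX_mem_S {n : ℕ} {P : Subgroup (SLZ n)} {𝔲 𝔣 : Submodule ℚ (MQ n)} {D : MX_D P 𝔲 𝔣}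
    {u : VQ n} {g : SLZ n} : g ∈ MX_S D u ↔ g ∈ P ∧ SolvG 𝔣 (qg g) ⊥ u := Iff.rfl

/-- step (2) -/
theorem MX_two {n : ℕ} {P : Subgroup (SLZ n)} {𝔲 𝔣 : Submodule ℚ (MQ n)} (D : MX_D P 𝔲 𝔣)
    (u : VQ n) (b : Set (MQ n)) (hb : ∀ N ∈ b, ∃ g ∈ P, (∃ s, JD (qg g) s N) ∧
      SolvG 𝔣 (qg g) ⊥ u) :
    ∀ X ∈ 𝔲 ⊔ Submodule.span ℚ b, ∃ m : ℕ, 1 ≤ m ∧ ∃ p ∈ MX_S D u, MX_NP 𝔲 p ((m : ℚ) • X) := by
  have hspan : ∀ X ∈ Submodule.span ℚ b, ∃ m : ℕ, 1 ≤ m ∧ ∃ p ∈ MX_S D u,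
      MX_NP 𝔲 p ((m : ℚ) • X) := by
    intro X hX
    induction hX using Submodule.span_induction with
    | mem X hX =>
      obtain ⟨g, hg, ⟨s, hJ⟩, hs⟩ := hb X hX
      refine ⟨1, le_rfl, g, ⟨hg, hs⟩, ?_⟩
      rw [Nat.cast_one, one_smul]
      intro s' N' hJ'
      obtain ⟨s0, N0, -, hu⟩ := D.je g
      rw [(hu s' N' hJ').2, (hu s X hJ).2, sub_self]
      exact 𝔲.zero_mem
    | zero =>
      refine ⟨1, le_rfl, 1, Subgroup.one_mem _, ?_⟩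
      rw [smul_zero]
      exact MX_NP_one D
    | add X Y _ _ hX hY =>
      obtain ⟨m, hm, p, hp, h1⟩ := hX
      obtain ⟨m', hm', p', hp', h2⟩ := hY
      refine ⟨m' * m, Nat.mul_pos hm' hm, p ^ m' * p' ^ m,
        (MX_S D u).mul_mem ((MX_S D u).pow_mem hp m') ((MX_S D u).pow_mem hp' m), ?_⟩
      have h3 := MX_NP_mul D (P.pow_mem hp.1 m') (P.pow_mem hp'.1 m) (MX_NP_pow D hp.1 h1 m')
        (MX_NP_pow D hp'.1 h2 m)
      have h4 : ((m' * m : ℕ) : ℚ) • (X + Y) = (m' : ℚ) • (m : ℚ) • X + (m : ℚ) • (m' : ℚ) • Y := by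
        rw [smul_add, Nat.cast_mul, smul_smul, smul_smul, mul_comm (m : ℚ) (m' : ℚ)]
      rw [h4]
      exact h3
    | smul c X _ hX =>
      obtain ⟨m, hm, p, hp, h1⟩ := hX
      refine ⟨m * c.den, Nat.mul_pos hm c.den_pos, p ^ c.num, (MX_S D u).zpow_mem hp c.num, ?_⟩
      have h3 := MX_NP_zpow D hp.1 h1 c.num
      have h4 : ((m * c.den : ℕ) : ℚ) • c • X = (c.num : ℚ) • (m : ℚ) • X := by
        rw [smul_smul, smul_smul, Nat.cast_mul]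
        congr 1
        have h5 : (c.num : ℚ) = c * c.den := (Rat.mul_den_eq_num c).symm
        rw [h5]
        ring
      rw [h4]
      exact h3
  intro X hX
  obtain ⟨X1, hX1, X2, hX2, rfl⟩ := Submodule.mem_sup.1 hX
  obtain ⟨m, hm, p, hp, h1⟩ := hspan X2 hX2
  refine ⟨m, hm, p, hp, ?_⟩
  intro s N hJ
  have h2 := 𝔲.sub_mem (h1 s N hJ) (𝔲.smul_mem (m : ℚ) hX1)
  have h3 : N - (m : ℚ) • (X1 + X2) = N - (m : ℚ) • X2 - (m : ℚ) • X1 := by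
    rw [smul_add]; abel
  rw [h3]
  exact h2

/-- step (3) -/
theorem MX_three (hFF : FF_stmt) (hJE : JE_stmt) (hJZ : JZ_stmt) (hPW : PW_stmt) (hZG : ZG_stmt)
    (hZC : ZC_stmt) (hZE : ZE_stmt) (hRU : RU_stmt) (hEI : EI_stmt) (hEXJ : UG.EXJ_stmt)
    {n : ℕ} {P : Subgroup (SLZ n)} {𝔲 : Submodule ℚ (MQ n)} {k : ℕ} {W : ℕ → Submodule ℚ (VQ n)}
    (h : FS P 𝔲 k W) (u : VQ n) (hinj : ∀ X ∈ 𝔲, X *ᵥ u = 0 → X = 0) (N : MQ n)
    (hN : N ∈ ff P 𝔲) (hNu : N *ᵥ u = 0) (m : ℕ) (hm : 1 ≤ m) (p : SLZ n) (hp : p ∈ P)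
    (hsol : SolvG (ff P 𝔲) (qg p) ⊥ u) (hNP : MX_NP 𝔲 p ((m : ℚ) • N)) :
    IsNilpotent.exp N ∈ ZQ (fixP P u) := by
  obtain ⟨hF1, hF2, hF3, hF4⟩ := hFF n P 𝔲 k W h
  obtain ⟨hG1, hG2⟩ := hZG n P
  have hnil : ∀ X ∈ ff P 𝔲, IsNilpotent X := fun X hX =>
    fil_one_nil h.bot h.top ((mem_fil_one h.bot).2 (hF1 X hX).1)
  have hexp : ∀ X ∈ ff P 𝔲, IsNilpotent.exp X ∈ ZQ (mz P) := by
    intro X hX
    have h1 := (hF1 X hX).2 1
    rwa [one_smul] at h1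
  obtain ⟨X, hX, hXu⟩ := hsol
  rw [Submodule.mem_bot, sub_eq_zero, mulVec_mulVec] at hXu
  have hy : IsNilpotent.exp X * qg p ∈ ZQ (mz P) :=
    hG1 _ (hexp X hX) _ (subset_ZQ _ ⟨p, hp, rfl⟩)
  have hydet : IsUnit (IsNilpotent.exp X * qg p).det := by
    rw [(hG2 _ hy).1]; exact isUnit_one
  obtain ⟨s, Ny, hJ, -, -, -⟩ := hJE n _ hydet
  obtain ⟨s0, N0, hJ0, -, -, -⟩ := hJE n (qg p) (MX_qg_det p)
  obtain ⟨hNy, hNy'⟩ := hF4 X hX p hp s Ny s0 N0 hJ hJ0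
  obtain ⟨-, hsP⟩ := (hRU n P 𝔲 k W h).2 _ hy s Ny hJ
  have hsu : s *ᵥ u = u := by
    have h1 := hJZ n _ s Ny hydet hJ 1 0
    rw [pow_one, zero_smul, IsNilpotent.exp_zero, mul_one] at h1
    refine MX_fix_ZQ ?_ s h1
    rintro x ⟨j, rfl⟩
    exact MX_pow_fix hXu j
  have hsdet : IsUnit s.det := by rw [(hG2 _ hsP).1]; exact isUnit_one
  have hNn := hnil N hN
  have hmN : (m : ℚ) • N ∈ ff P 𝔲 := (ff P 𝔲).smul_mem _ hN
  have hNyn := hnil Ny hNy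
  -- the element of `𝔲`
  obtain ⟨Z1, hZ1, hZ1e, hZ1u⟩ := hF2 _ hmN _ ((ff P 𝔲).neg_mem hNy)
  obtain ⟨Z, -, hZe, hZu⟩ := hF2 _ hZ1 _ hX
  have hZ : Z ∈ 𝔲 := by
    have h1 := 𝔲.sub_mem (𝔲.sub_mem (𝔲.add_mem hZu hZ1u) hNy') (hNP s0 N0 hJ0)
    have h2 : Z = Z - Z1 - X + (Z1 - (m : ℚ) • N - -Ny) - (Ny - X - N0) - (N0 - (m : ℚ) • N) := by
      abel
    rw [h2]
    exact h1
  have hs : s = IsNilpotent.exp (-Ny) * (IsNilpotent.exp X * qg p) := by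
    rw [hJ.2.2.2, (MX_comm_exp hJ.2.1 hNyn).eq, ← mul_assoc,
      IsNilpotent.exp_neg_mul_exp_self hNyn, one_mul]
  have hy' : IsNilpotent.exp ((m : ℚ) • N) * s = IsNilpotent.exp Z * qg p := by
    rw [← hZe, ← hZ1e]
    conv_lhs => rw [hs]
    simp only [mul_assoc]
  -- `s` and `N` commute
  have hNfix : IsNilpotent.exp N *ᵥ u = u := (hEXJ n N hNn).2.2.2.2.1 u hNu
  have hNdet : IsUnit (IsNilpotent.exp N).det := by
    rw [(hG2 _ (hexp N hN)).1]; exact isUnit_one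
  have hcomm : IsNilpotent.exp N * s = s * IsNilpotent.exp N := by
    obtain ⟨X', hX', hX'e⟩ := hZC n P (Ex 𝔲) (hZE n 𝔲 k W h.bot h.top h.down)
      (fun g hg g' hg' => h.com g hg g' hg') _ (hexp N hN) s hsP
    have hfix : IsNilpotent.exp X' *ᵥ u = u := by
      rw [← hX'e, ← mulVec_mulVec, ← mulVec_mulVec, ← mulVec_mulVec, MX_inv_fix hsdet hsu,
        MX_inv_fix hNdet hNfix, hsu, hNfix]
    have hX'n : IsNilpotent X' := hnil X' (Submodule.mem_sup_left hX')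
    have h0 := hinj X' hX' ((hEXJ n X' hX'n).2.1 u hfix)
    rw [h0, IsNilpotent.exp_zero] at hX'e
    have e1 : s⁻¹ * s = 1 := Matrix.nonsing_inv_mul s hsdet
    have e2 : (IsNilpotent.exp N)⁻¹ * IsNilpotent.exp N = 1 := Matrix.nonsing_inv_mul _ hNdet
    calc IsNilpotent.exp N * s
        = IsNilpotent.exp N * s * ((IsNilpotent.exp N)⁻¹ * (s⁻¹ * s) * IsNilpotent.exp N) := by
          rw [e1, mul_one, e2, mul_one]
      _ = (IsNilpotent.exp N * s * (IsNilpotent.exp N)⁻¹ * s⁻¹) * (s * IsNilpotent.exp N) := by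
          simp only [mul_assoc]
      _ = s * IsNilpotent.exp N := by rw [hX'e, one_mul]
  have e1 : s⁻¹ * s = 1 := Matrix.nonsing_inv_mul s hsdet
  have e2 : s * s⁻¹ = 1 := Matrix.mul_nonsing_inv s hsdet
  have hcommN : Commute s N := by
    have h1 : IsNilpotent.exp (s * N * s⁻¹) = IsNilpotent.exp N := by
      rw [← MX_exp_conj e1 e2 hNn, ← hcomm, mul_assoc, e2, mul_one]
    have h2 := hEI n _ _ (MX_conj_nil e1 e2 hNn) hNn h1
    show s * N = N * s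
    calc s * N = s * N * s⁻¹ * s := by rw [mul_assoc (s * N), e1, mul_one]
      _ = N * s := by rw [h2]
  have hmNn : IsNilpotent ((m : ℚ) • N) := hnil _ hmN
  have hcomm2 : Commute s ((m : ℚ) • N) := hcommN.smul_right _
  -- powers
  obtain ⟨M, hM, q, hq, hqe⟩ := hPW n P 𝔲 k W h Z hZ p hp
  rw [← hy'] at hqe
  have hqu : qg q *ᵥ u = u := by
    rw [← hqe]
    apply MX_pow_fix
    rw [← mulVec_mulVec, hsu]
    refine (hEXJ n _ hmNn).2.2.2.2.1 u ?_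
    rw [Matrix.smul_mulVec, hNu, smul_zero]
  have hJM : JD (qg q) (s ^ M) ((M : ℚ) • (m : ℚ) • N) := by
    refine ⟨hnil _ ((ff P 𝔲).smul_mem _ hmN), (hcomm2.pow_left M).smul_right _, ?_, ?_⟩
    · have h1 : Matrix.toLin' (s ^ M) = Matrix.toLin' s ^ M := Matrix.toLin'_pow s M
      rw [h1]
      exact hJ.2.2.1.pow M
    · rw [← hqe, ((MX_comm_exp hcomm2 hmNn).symm).mul_pow, (hEXJ n _ hmNn).1 M]
      have h2 : Commute (s ^ M) (IsNilpotent.exp ((M : ℚ) • (m : ℚ) • N)) :=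
        MX_comm_exp ((hcomm2.pow_left M).smul_right _) (hnil _ ((ff P 𝔲).smul_mem _ hmN))
      exact h2.symm.eq
  have h1 := hJZ n (qg q) _ _ (MX_qg_det q) hJM 0 (((M : ℚ) * (m : ℚ))⁻¹)
  rw [pow_zero, one_mul, smul_smul, smul_smul] at h1
  have hM0 : (M : ℚ) ≠ 0 := by exact_mod_cast (by omega : M ≠ 0)
  have hm0 : (m : ℚ) ≠ 0 := by exact_mod_cast (by omega : m ≠ 0)
  have h2 : ((M : ℚ) * (m : ℚ))⁻¹ * ((M : ℚ) * (m : ℚ)) = 1 :=
    inv_mul_cancel₀ (mul_ne_zero hM0 hm0)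
  have h3 : ((M : ℚ) * (m : ℚ))⁻¹ * (M : ℚ) * (m : ℚ) = 1 := by rw [mul_assoc, h2]
  rw [h3, one_smul] at h1
  refine ZQ_mono ?_ h1
  rintro x ⟨j, rfl⟩
  exact ⟨q ^ j, P.pow_mem hq j, by rw [qg_pow]; exact MX_pow_fix hqu j, (qg_pow q j).symm⟩

theorem MX_exp_two {n : ℕ} {N : MQ n} (hN : IsNilpotent N) (w : VQ n)
    (hw : N *ᵥ (N *ᵥ w) = 0) : IsNilpotent.exp N *ᵥ w = w + N *ᵥ w := by
  obtain ⟨k, hk⟩ := hN
  have hk2 : N ^ (k + 2) = 0 := by rw [pow_add, hk, zero_mul]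
  rw [IsNilpotent.exp_eq_sum hk2, Finset.sum_range_succ', Finset.sum_range_succ']
  have h1 : (∑ i ∈ Finset.range k, (((i + 1 + 1).factorial : ℚ)⁻¹) • N ^ (i + 1 + 1)) *ᵥ w
      = 0 := by
    rw [Matrix.sum_mulVec]
    apply Finset.sum_eq_zero
    intro i _
    rw [Matrix.smul_mulVec, pow_succ, pow_succ, ← mulVec_mulVec, ← mulVec_mulVec, hw,
      mulVec_zero, smul_zero]
  rw [add_mulVec, add_mulVec, h1]
  simp only [Nat.factorial_zero, Nat.factorial_one, Nat.cast_one, inv_one, one_smul, pow_zero,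
    one_mulVec, zero_add, pow_one]
  rw [add_comm]

theorem MX_low {n : ℕ} {N : MQ n} (hN : IsNilpotent N) (h0 : N ≠ 0) :
    ∃ w : VQ n, N *ᵥ w ≠ 0 ∧ N *ᵥ (N *ᵥ w) = 0 := by
  classical
  have hex : ∃ j, N ^ j = 0 := hN
  have h1 := Nat.find_spec hex
  have h2 : ∀ j, j < Nat.find hex → N ^ j ≠ 0 := fun j hj => Nat.find_min hex hj
  rcases hj : Nat.find hex with _ | _ | j
  · rw [hj, pow_zero] at h1
    exact absurd (by rw [← mul_one N, h1, mul_zero]) h0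
  · rw [hj, zero_add, pow_one] at h1
    exact absurd h1 h0
  · rw [hj] at h1
    have h3 := h2 (j + 1) (by omega)
    have h4 : ∃ v : VQ n, (N ^ (j + 1)) *ᵥ v ≠ 0 := by
      by_contra hc
      apply h3
      apply Matrix.toLin'.injective
      apply LinearMap.ext
      intro v
      rw [Matrix.toLin'_apply, map_zero, LinearMap.zero_apply]
      by_contra hv
      exact hc ⟨v, hv⟩
    obtain ⟨v, hv⟩ := h4
    refine ⟨(N ^ j) *ᵥ v, ?_, ?_⟩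
    · rw [mulVec_mulVec, ← pow_succ']
      exact hv
    · rw [mulVec_mulVec, mulVec_mulVec, mul_assoc, ← pow_succ', ← pow_succ', h1, zero_mulVec]

/-- a generic vector is not in a proper subspace -/
theorem MX_gen_notMem {n : ℕ} (A : Submodule ℚ (VQ n)) (hA : A ≠ ⊤) :
    Gen (fun u : VQ n => u ∉ A) := by
  obtain ⟨v, hv⟩ : ∃ v, v ∉ A := by
    by_contra hc
    exact hA (eq_top_iff.2 fun v _ => by
      by_contra hv
      exact hc ⟨v, hv⟩)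
  obtain ⟨ℓ, hℓ, hℓ2⟩ := Submodule.exists_le_ker_of_notMem hv
  have key : ∀ u : VQ n, MvPolynomial.eval u
      (∑ i, MvPolynomial.C (ℓ (Pi.single i 1)) * MvPolynomial.X i) = ℓ u := by
    intro u
    have h1 : u = ∑ i, u i • (Pi.single i (1 : ℚ) : VQ n) := by
      ext j
      rw [Finset.sum_apply, Finset.sum_eq_single j]
      · rw [Pi.smul_apply, Pi.single_eq_same, smul_eq_mul, mul_one]
      · intro i _ hij
        rw [Pi.smul_apply, Pi.single_eq_of_ne hij.symm, smul_zero]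
      · intro hj
        exact absurd (Finset.mem_univ j) hj
    conv_rhs => rw [h1]
    rw [map_sum, map_sum]
    apply Finset.sum_congr rfl
    intro i _
    rw [map_mul, MvPolynomial.eval_C, MvPolynomial.eval_X, map_smul, smul_eq_mul, mul_comm]
  have hf : (∑ i, MvPolynomial.C (ℓ (Pi.single i 1)) * MvPolynomial.X i :
      MvPolynomial (Fin n) ℚ) ≠ 0 := by
    intro h0
    have h1 := key v
    rw [h0, map_zero] at h1
    exact hℓ h1.symm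
  refine (Gen.of_ne hf).mono fun u hu hu' => ?_
  rw [key] at hu
  exact hu (hℓ2 hu')

/-- step (4) -/
theorem MX_four {n : ℕ} {k : ℕ} {W : ℕ → Submodule ℚ (VQ n)} (hbot : W 0 = ⊥) (htop : W k = ⊤)
    (N : VQ n → MQ n) (hN : ∀ u, ∀ i, ∀ w ∈ W (i + 1), N u *ᵥ w ∈ W i)
    (hNu : ∀ u, N u *ᵥ u = 0) (hgen : Gen (fun u => N u ≠ 0)) :
    Gen (fun u => ∃ w : VQ n, IsNilpotent.exp (N u) *ᵥ w ∉ Submodule.span ℚ {u, w}) := by
  classical
  have hnil : ∀ u, IsNilpotent (N u) := fun u =>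
    fil_one_nil hbot htop ((mem_fil_one hbot).2 (hN u))
  have hex : ∃ j, W j = ⊤ := ⟨k, htop⟩
  have h1 := Nat.find_spec hex
  rcases hj : Nat.find hex with _ | j
  · rw [hj, hbot] at h1
    obtain ⟨u0, hu0⟩ := hgen.exists
    exfalso
    apply hu0
    apply Matrix.toLin'.injective
    apply LinearMap.ext
    intro v
    rw [Matrix.toLin'_apply, map_zero, LinearMap.zero_apply]
    have h2 : N u0 *ᵥ v ∈ (⊤ : Submodule ℚ (VQ n)) := trivial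
    rw [← h1] at h2
    exact (Submodule.mem_bot ℚ).1 h2
  · rw [hj] at h1
    have h2 : W j ≠ ⊤ := Nat.find_min hex (by omega)
    refine (hgen.and (MX_gen_notMem (W j) h2)).mono ?_
    rintro u ⟨hu0, huW⟩
    obtain ⟨w, hw, hw2⟩ := MX_low (hnil u) hu0
    refine ⟨w, fun hmem => ?_⟩
    rw [MX_exp_two (hnil u) w hw2, Submodule.mem_span_pair] at hmem
    obtain ⟨a, b, hab⟩ := hmem
    have h3 : N u *ᵥ w = a • u + (b - 1) • w := by
      have h4 : N u *ᵥ w = (w + N u *ᵥ w) - w := by abel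
      rw [h4, ← hab, sub_smul, one_smul]
      abel
    have h5 : N u *ᵥ (N u *ᵥ w) = (b - 1) • (N u *ᵥ w) := by
      conv_lhs => rw [h3]
      rw [mulVec_add, mulVec_smul, mulVec_smul, hNu, smul_zero, zero_add]
    rw [hw2] at h5
    have h6 : b - 1 = 0 := (smul_eq_zero.1 h5.symm).resolve_right hw
    rw [h6, zero_smul, add_zero] at h3
    have ha : a ≠ 0 := by
      rintro rfl
      exact hw (by rw [h3, zero_smul])
    have h7 : N u *ᵥ w ∈ W j := hN u j w (by rw [h1]; trivial)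
    have h8 : u = a⁻¹ • (N u *ᵥ w) := by rw [h3, smul_smul, inv_mul_cancel₀ ha, one_smul]
    exact huW (by rw [h8]; exact (W j).smul_mem _ h7)

theorem MX (hFF : FF_stmt) (hAD : AD_stmt) (hGI : GI_stmt) (hJE : JE_stmt) (hJZ : JZ_stmt)
    (hPW : PW_stmt) (hCRA : UG.CRA_stmt) (hZG : ZG_stmt) (hZC : ZC_stmt) (hZE : ZE_stmt)
    (hRU : RU_stmt) (hRS : RS_stmt) (hEI : EI_stmt) (hEXJ : UG.EXJ_stmt) : MX_stmt := by
  classical
  intro n P 𝔲 k W h hinj hsol hstar hmix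
  obtain ⟨hF1, hF2, hF3, hF4⟩ := hFF n P 𝔲 k W h
  have hnil : ∀ X ∈ ff P 𝔲, IsNilpotent X := fun X hX =>
    fil_one_nil h.bot h.top ((mem_fil_one h.bot).2 (hF1 X hX).1)
  have hGinj := hGI n 𝔲 hinj
  have hD : MX_D P 𝔲 (ff P 𝔲) :=
    { nil := hnil
      mul := fun X hX Y hY => by
        obtain ⟨Z, hZ, h1, -⟩ := hF2 X hX Y hY
        exact ⟨Z, hZ, h1⟩
      conj := fun X hX g hg => by
        have h1 := (hF3 X hX (qg g) (subset_ZQ _ ⟨g, hg, rfl⟩)).1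
        rwa [MX_qg_inv] at h1
      je := fun g => by
        obtain ⟨s, N, h1, -, -, h2⟩ := hJE n (qg g) (MX_qg_det g)
        exact ⟨s, N, h1, h2⟩
      ad := hAD n P 𝔲 k W h hinj hsol }
  -- step (1)
  have hkill : ∀ u : VQ n, ∃ X ∈ ff P 𝔲, X ≠ 0 ∧ X *ᵥ u = 0 := by
    by_contra hc
    have h1 : ∃ u : VQ n, ∀ X ∈ ff P 𝔲, X *ᵥ u = 0 → X = 0 := by
      by_contra hc'
      apply hc
      intro u
      by_contra hc''
      apply hc'
      refine ⟨u, fun X hX hXu => ?_⟩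
      by_contra hX0
      exact hc'' ⟨X, hX, hX0, hXu⟩
    have h2 := hGI n (ff P 𝔲) h1
    obtain ⟨u, ⟨⟨g, hg, hg1, hgu⟩, hu1⟩, hu2⟩ := ((hstar.and hGinj).and h2).exists
    obtain ⟨s, N, hJ, -, -, -⟩ := hJE n (qg g) (MX_qg_det g)
    have hnn : ¬ IsNilpotent (qg g - 1) := by
      intro hn
      obtain ⟨X, hX, hXe⟩ := h.uni g hg hn
      have h3 : X *ᵥ u = 0 :=
        (hEXJ n X (hnil X (Submodule.mem_sup_left hX))).2.1 u (by rw [← hXe]; exact hgu)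
      have h4 := hu1 X hX h3
      rw [h4, IsNilpotent.exp_zero] at hXe
      exact hg1 (qg_inj (by rw [hXe, qg_one]))
    have hN0 : N ≠ 0 := by
      rintro rfl
      exact hnn (hmix g hg s 0 hJ 𝔲.zero_mem)
    have hNff : N ∈ ff P 𝔲 :=
      Submodule.mem_sup_right (Submodule.subset_span ⟨g, hg, s, hJ⟩)
    have h5 := hJZ n _ s N (MX_qg_det g) hJ 0 1
    rw [pow_zero, one_mul, one_smul] at h5
    have h6 : IsNilpotent.exp N *ᵥ u = u := by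
      refine MX_fix_ZQ ?_ _ h5
      rintro x ⟨j, rfl⟩
      exact MX_pow_fix hgu j
    exact hN0 (hu2 N hNff ((hEXJ n N hJ.1).2.1 u h6))
  -- the rational family
  set r := Module.finrank ℚ (ff P 𝔲) with hr
  let B : Basis (Fin r) ℚ (ff P 𝔲) := Module.finBasis ℚ (ff P 𝔲)
  have hBli : LinearIndependent ℚ (fun i => (B i : MQ n)) :=
    B.linearIndependent.map' (ff P 𝔲).subtype (Submodule.ker_subtype _)
  obtain ⟨c, hc0, hc⟩ := hCRA n r (fun i => (B i : MQ n)) (by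
    intro u
    obtain ⟨X, hX, hX0, hXu⟩ := hkill u
    refine ⟨B.repr ⟨X, hX⟩, ?_, ?_⟩
    · intro h0
      apply hX0
      have h1 : B.repr ⟨X, hX⟩ = 0 := Finsupp.ext fun i => congrFun h0 i
      have h2 : (⟨X, hX⟩ : ff P 𝔲) = 0 := by
        rw [← B.repr.map_eq_zero_iff]; exact h1
      exact congrArg Subtype.val h2
    · have h1 : ∑ i, (B.repr ⟨X, hX⟩) i • (B i : MQ n) = X := by
        have h2 := congrArg (ff P 𝔲).subtype (B.sum_repr ⟨X, hX⟩)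
        rw [map_sum] at h2
        simpa using h2
      rw [h1]
      exact hXu)
  set N : VQ n → MQ n := fun u => ∑ i, MvPolynomial.eval u (c i) • (B i : MQ n) with hNdef
  have hNff : ∀ u, N u ∈ ff P 𝔲 := fun u =>
    Submodule.sum_mem _ fun i _ => (ff P 𝔲).smul_mem _ (B i).2
  have hNu : ∀ u, N u *ᵥ u = 0 := hc
  have hNgen : Gen (fun u => N u ≠ 0) := by
    obtain ⟨i, hi⟩ : ∃ i, c i ≠ 0 := by
      by_contra hcc
      exact hc0 (funext fun i => by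
        by_contra hi
        exact hcc ⟨i, hi⟩)
    refine (Gen.of_ne hi).mono fun u hu h0 => ?_
    exact hu (Fintype.linearIndependent_iff.1 hBli (fun i => MvPolynomial.eval u (c i)) h0 i)
  -- step (2)
  obtain ⟨b, hbT, hbspan, hbli⟩ := exists_linearIndependent ℚ
    {N : MQ n | ∃ g ∈ P, ∃ s, JD (qg g) s N}
  have hbfin : b.Finite := hbli.setFinite
  have hgsol : Gen (fun u => ∀ X ∈ hbfin.toFinset, ∃ g ∈ P, (∃ s, JD (qg g) s X) ∧
      SolvG (ff P 𝔲) (qg g) ⊥ u) := by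
    apply Gen.all
    intro X hX
    obtain ⟨g, hg, s, hJ⟩ := hbT (hbfin.mem_toFinset.1 hX)
    exact (hsol g hg).mono fun u hu => ⟨g, hg, ⟨s, hJ⟩, hu⟩
  have hmain : Gen (fun u => IsNilpotent.exp (N u) ∈ ZQ (fixP P u)) := by
    refine (hGinj.and hgsol).mono ?_
    rintro u ⟨hu1, hu2⟩
    have h1 : N u ∈ 𝔲 ⊔ Submodule.span ℚ b := by
      rw [hbspan]
      exact hNff u
    obtain ⟨m, hm, p, hp, hNP⟩ := MX_two hD u b
      (fun X hX => hu2 X (hbfin.mem_toFinset.2 hX)) (N u) h1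
    exact MX_three hFF hJE hJZ hPW hZG hZC hZE hRU hEI hEXJ h u hu1 (N u) (hNff u) (hNu u) m hm p
      hp.1 hp.2 hNP
  have hRFN : RF N := by
    refine ⟨1, one_ne_zero, fun i j => ∑ l, c l * MvPolynomial.C ((B l : MQ n) i j),
      fun u _ i j => ?_⟩
    rw [map_one, one_mul, map_sum]
    show _ = (∑ l, MvPolynomial.eval u (c l) • (B l : MQ n)) i j
    rw [Matrix.sum_apply]
    apply Finset.sum_congr rfl
    intro l _
    rw [map_mul, MvPolynomial.eval_C]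
    rfl
  have hNW : ∀ u, ∀ i, ∀ w ∈ W (i + 1), N u *ᵥ w ∈ W i := fun u => (hF1 _ (hNff u)).1
  have hNk : ∀ u, N u ^ k = 0 := by
    intro u
    have h1 : ∀ i, N u ^ i ∈ fil W i := by
      intro i
      induction i with
      | zero =>
        intro a w hw
        rw [pow_zero, Matrix.one_mulVec]
        exact hw
      | succ i ih =>
        rw [pow_succ]
        exact fil_mul ih ((mem_fil_one h.bot).2 (hNW u))
    have h2 := h1 k
    rw [fil_bot h.bot h.top] at h2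
    exact (Submodule.mem_bot ℚ).1 h2
  refine ⟨fun u => IsNilpotent.exp (N u), ?_, hmain, MX_four h.bot h.top N hNW hNu hNgen⟩
  have h1 : (fun u => IsNilpotent.exp (N u))
      = fun u => ∑ i ∈ Finset.range k, (((i.factorial : ℕ) : ℚ)⁻¹) • N u ^ i := by
    funext u
    exact IsNilpotent.exp_eq_sum (hNk u)
  rw [h1]
  exact RF.sum _ _ fun i _ => (hRFN.pow i).smul _

end Pool.Agent.BS
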