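import Pool.Agent.helper73.BS.Spec2

set_option autoImplicit false

namespace Pool.Agent.BS

open Matrix Module Pool.Agent.UG Pool.Agent.H48SL Pool.Agent.SHL

theorem TR_conj_pow {n : ℕ} {g g' : MQ n} (h : g' * g = 1) (h' : g * g' = 1) (X : MQ n) (k : ℕ) :
    (g * X * g') ^ k = g * X ^ k * g' := by
  induction k with
  | zero => rw [pow_zero, pow_zero, mul_one, h']
  | succ k ih =>
    rw [pow_succ, ih, pow_succ]
    calc g * X ^ k * g' * (g * X * g') = g * X ^ k * (g' * g) * X * g' := by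
          simp only [mul_assoc]
      _ = g * (X ^ k * X) * g' := by rw [h, mul_one]; simp only [mul_assoc]

theorem TR_exp_conj {n : ℕ} {g g' : MQ n} (h : g' * g = 1) (h' : g * g' = 1) {X : MQ n}
    (hX : IsNilpotent X) :
    g * IsNilpotent.exp X * g' = IsNilpotent.exp (g * X * g') := by
  obtain ⟨k, hk⟩ := hX
  have hk' : (g * X * g') ^ k = 0 := by rw [TR_conj_pow h h', hk, mul_zero, zero_mul]
  rw [IsNilpotent.exp_eq_sum hk, IsNilpotent.exp_eq_sum hk', Finset.mul_sum, Finset.sum_mul]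
  apply Finset.sum_congr rfl
  intro i _
  rw [TR_conj_pow h h', mul_smul_comm, smul_mul_assoc]

theorem TR_mul {n : ℕ} (e φ : Fin n → ℚ) (Y : MQ n) :
    vecMulVec e φ * Y * vecMulVec e φ = (φ ⬝ᵥ (Y *ᵥ e)) • vecMulVec e φ := by
  rw [vecMulVec_mul, vecMulVec_mul_vecMulVec, ← dotProduct_mulVec]
  ext i j
  simp only [vecMulVec_apply, Matrix.smul_apply, Pi.smul_apply, smul_eq_mul]
  try ring

theorem TR_trace {n : ℕ} (e φ : Fin n → ℚ) (Y : MQ n) :
    (vecMulVec e φ * Y).trace = φ ⬝ᵥ (Y *ᵥ e) := by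
  rw [vecMulVec_mul, Matrix.trace_vecMulVec, dotProduct_mulVec, dotProduct_comm]

theorem TR_cast_dot {n : ℕ} (a b : Fin n → ℤ) : ((a ⬝ᵥ b : ℤ) : ℚ) = castV a ⬝ᵥ castV b := by
  simp [castV, dotProduct]

theorem TR (hEXJ : UG.EXJ_stmt) : TR_stmt := by
  intro n hn H P hD hPH 𝔲 k W hFS hstar e φ hφe hz1 hzP
  set E : Fin n → ℚ := castV e with hE
  set Φ : Fin n → ℚ := castV φ with hΦ
  set A : MQ n := vecMulVec E Φ with hA
  have hΦE : Φ ⬝ᵥ E = 0 := by rw [hE, hΦ, ← TR_cast_dot, hφe, Int.cast_zero]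
  have hqz : qg (tv e φ) = 1 + A := qg_tv hφe
  have hAA : A * A = 0 := by
    have := TR_mul E Φ (1 : MQ n)
    rwa [mul_one, one_mulVec, hΦE, zero_smul] at this
  have he0 : e ≠ 0 := by
    rintro rfl
    apply hz1
    apply qg_inj
    rw [hqz, qg_one, hA, hE, castV_zero, zero_vecMulVec, add_zero]
  have hφ0 : φ ≠ 0 := by
    rintro rfl
    apply hz1
    apply qg_inj
    rw [hqz, qg_one, hA, hΦ, castV_zero, vecMulVec_zero, add_zero]
  have hE0 : E ≠ 0 := by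
    intro h0
    exact he0 (castV_inj (by rw [castV_zero]; exact h0))
  have hΦ0 : Φ ≠ 0 := by
    intro h0
    exact hφ0 (castV_inj (by rw [castV_zero]; exact h0))
  obtain ⟨u, hu⟩ : ∃ u : Fin n → ℚ, Φ ⬝ᵥ u ≠ 0 := by
    by_contra hcon
    push Not at hcon
    exact hΦ0 (dotProduct_eq_zero Φ hcon)
  obtain ⟨X, hX, hXe⟩ := hFS.uni (tv e φ) hzP (by
    rw [hqz, add_sub_cancel_left]
    exact ⟨2, by rw [pow_two, hAA]⟩)
  obtain ⟨g, hg, hginf, hgu⟩ := hstar u
  have hnil : ∀ Z ∈ 𝔲, IsNilpotent Z := fun Z hZ =>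
    fil_one_nil hFS.bot hFS.top ((mem_fil_one hFS.bot).2 (hFS.down Z hZ))
  obtain ⟨Z, hZ, hZe⟩ := hFS.grp X hX _ (hFS.conj g hg X hX)
  rw [← TR_exp_conj (qg_inv_mul g) (qg_mul_inv g) (hnil X hX), ← hXe, hqz] at hZe
  have htr : (IsNilpotent.exp Z - 1).trace = 0 :=
    (Matrix.isNilpotent_trace_of_isNilpotent
      (IsNilpotent.isNilpotent_exp_sub_one (hnil Z hZ))).eq_zero
  have e1 : (1 + A) * (qg g * (1 + A) * qg g⁻¹) - 1
      = A + qg g * A * qg g⁻¹ + A * qg g * A * qg g⁻¹ := by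
    have e2 : qg g * (1 + A) * qg g⁻¹ = 1 + qg g * A * qg g⁻¹ := by
      rw [mul_add, add_mul, mul_one, qg_mul_inv]
    rw [e2, mul_add, mul_one, add_mul, one_mul]
    simp only [mul_assoc]
    abel
  rw [← hZe, e1, Matrix.trace_add, Matrix.trace_add] at htr
  have t1 : A.trace = 0 := by
    have := TR_trace E Φ (1 : MQ n)
    rwa [mul_one, one_mulVec, hΦE] at this
  have t2 : (qg g * A * qg g⁻¹).trace = 0 := by
    rw [Matrix.trace_mul_cycle, qg_inv_mul, one_mul, t1]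
  have t3 : (A * qg g * A * qg g⁻¹).trace = (Φ ⬝ᵥ (qg g *ᵥ E)) * (Φ ⬝ᵥ (qg g⁻¹ *ᵥ E)) := by
    rw [hA, TR_mul, smul_mul_assoc, Matrix.trace_smul, TR_trace, smul_eq_mul]
  rw [t1, t2, t3, zero_add, zero_add] at htr
  have key : ∀ g' ∈ P, (∀ j : ℕ, 0 < j → g' ^ j ≠ 1) → qg g' *ᵥ u = u →
      Φ ⬝ᵥ (qg g' *ᵥ E) = 0 → H.FiniteIndex := by
    intro g' hg' hinf hfix h0
    have hsmall : |φ ⬝ᵥ ((g' : Matrix (Fin n) (Fin n) ℤ) *ᵥ e)| ≤ 2 := by
      have h3 : ((φ ⬝ᵥ ((g' : Matrix (Fin n) (Fin n) ℤ) *ᵥ e) : ℤ) : ℚ) = 0 := by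
        rw [TR_cast_dot, ← qg_mulVec_castV]
        exact h0
      have h4 : φ ⬝ᵥ ((g' : Matrix (Fin n) (Fin n) ℤ) *ᵥ e) = 0 := by exact_mod_cast h3
      rw [h4]
      norm_num
    have hgau : ∀ a : ℕ, qg (g' ^ a) *ᵥ u = u := by
      intro a
      induction a with
      | zero => rw [pow_zero, qg_one, one_mulVec]
      | succ a ih => rw [pow_succ, qg_mul, ← mulVec_mulVec, hfix, ih]
    refine (final_coef (by rw [Fintype.card_fin]; exact hn) H e φ (tv e φ) g' (hPH hzP) (hPH hg')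
      hz1 (tv_coe hφe) hsmall (Or.inr ?_)).1 hD
    intro a ha b hab
    have hb : b = 0 := by
      have h3 := hgau a
      rw [hab, ← tv_zsmul_right hφe, qg_tv (by rw [smul_dotProduct, hφe, smul_zero]), add_mulVec,
        one_mulVec, add_eq_left, vecMulVec_mulVec] at h3
      have h4 : castV (b • φ) = (b : ℚ) • Φ := by
        ext i
        simp [castV, hΦ]
      rw [h4, smul_dotProduct] at h3
      by_contra hb0
      have hbq : (b : ℚ) ≠ 0 := by exact_mod_cast hb0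
      have h6 : ∃ i, E i ≠ 0 := by
        by_contra hcon
        push Not at hcon
        exact hE0 (funext hcon)
      obtain ⟨i, hi⟩ := h6
      have h7 := congrFun h3 i
      simp only [Pi.smul_apply, smul_eq_mul, Pi.zero_apply, MulOpposite.smul_eq_mul_unop,
        MulOpposite.unop_op] at h7
      exact (mul_ne_zero hi (mul_ne_zero hbq hu)) h7
    rw [hb, zpow_zero] at hab
    exact hinf a (by omega) hab
  rcases mul_eq_zero.1 htr with h0 | h0
  · exact key g hg hginf hgu h0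
  · refine key g⁻¹ (P.inv_mem hg) ?_ ?_ h0
    · intro j hj h1
      rw [inv_pow, inv_eq_one] at h1
      exact hginf j hj h1
    · have h1 : qg g⁻¹ *ᵥ (qg g *ᵥ u) = qg g⁻¹ *ᵥ u := by rw [hgu]
      rw [mulVec_mulVec, qg_inv_mul, one_mulVec] at h1
      exact h1.symm

end Pool.Agent.BS
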